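import Pool.Agent.V11251.DS.ArbI

/-!
# Sums of two primes, one of them with a condition on its index, for rearranged digits

The analytic input (the laws of the random integers, second moments of the error for one form with arbitrary weights) is
in the starting files `Pool.Agent.H373R2.T7`, `Pool.Agent.W93`, `Pool.Agent.TH872`; new are the systems of several forms
with arbitrary weights and the passage to primes (`Pool.Agent.V11251.DS`).
-/

set_option autoImplicit false

namespace Pool.Agent.Results.MP_0ec542_nt.RearrangedIndexConditions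

open Finset

/-- `d` is a word of `k` digits in base `b`, in which no digit stands at more than `(1 - η) k` places. -/
def Mixed (b k : ℕ) (η : ℝ) (d : Fin k → ℕ) : Prop :=
  (∀ i, d i < b) ∧ ∀ a, ((univ.filter fun i => d i = a).card : ℝ) ≤ (1 - η) * k

/-- The integer whose `k` digits in base `b` are the digits `d` rearranged by the permutation `σ`: the digit number `j`
(the coefficient of `b ^ j`) is `d (σ j)`. -/
def rearranged (b : ℕ) {k : ℕ} (d : Fin k → ℕ) (σ : Equiv.Perm (Fin k)) : ℕ := ∑ j : Fin k, d (σ j) * b ^ (j : ℕ)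

open Classical in
/-- The sieve model of the indicator function of the primes: `1 / (log x ∏_{p ≤ z} (1 - 1 / p))` if `x ≥ 2` has no prime
factor `≤ z`, and `0` if `x = 0` or if `x` has a prime factor `≤ z` (for `x = 1` the logarithm is replaced by `log 2`). -/
noncomputable def model (z x : ℕ) : ℝ :=
  if 1 ≤ x ∧ ∀ p : ℕ, p.Prime → p ≤ z → ¬ p ∣ x then
    1 / (Real.log (max x 2 : ℕ) * ∏ p ∈ (Icc 1 z).filter Nat.Prime, (1 - 1 / (p : ℝ))) else 0

/-- The set of the problem: the `q` for which `p_{q+2} + 2` is a prime (`p_1 = 2`, so that `p_{q+2}` is the prime number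
`q + 1` counted from `0`). -/
def twinIndex : Set ℕ := {q | (Nat.nth Nat.Prime (q + 1) + 2).Prime}

open Classical in
/-- The primes `q ≤ X` which belong to the set `S`. -/
noncomputable def primesIn (S : Set ℕ) (X : ℕ) : Finset ℕ := (Icc 1 X).filter (fun q => q ∈ S ∧ q.Prime)

open Classical in
/-- The primes `q ≤ X` of the set `S` for which all the numbers `Y i - q` are primes. -/
noncomputable def common {s : ℕ} (S : Set ℕ) (Y : Fin s → ℕ) (X : ℕ) : Finset ℕ :=
  (primesIn S X).filter (fun q => ∀ i, (Y i - q).Prime)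

/-- For the set `twinIndex` and for the first `L` of the sets `A 0, A 1, ...`, and for all `X ≤ N`, the number of the
primes `q ≤ X` in the set for which all the `Y i - q` are primes is equal to the sum of the products of the models of
`Y i - q` over the primes `q ≤ X` in the set, up to an error of at most `N / log ^ U N`. -/
def Good {s : ℕ} (z U L N : ℕ) (A : ℕ → Set ℕ) (Y : Fin s → ℕ) : Prop :=
  ∀ S : Set ℕ, (S = twinIndex ∨ ∃ l < L, S = A l) → ∀ X ≤ N,
    |((common S Y X).card : ℝ) - ∑ q ∈ primesIn S X, ∏ i, model z (Y i - q)| ≤ N / Real.log N ^ U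

open Classical in
/-- Let `s`, bases `b i ≥ 2`, `η > 0` and `κ i ≥ 1` (`i < s`), `B`, `T` and `U` be fixed, let `E` be a sufficiently large
exponent, let `N` be large, `log ^ E N ≤ z ≤ log ^ (E + 1) N`, let `k i` be lengths with `N / B ≤ b i ^ k i ≤ B N`, let
`0 ≤ c i ≤ B N`, and let `d i` be ANY word of `k i` digits in base `b i` in which no digit stands at more than `(1 - η) k i`
places, and let `A 0, ..., A (L - 1)`, `L ≤ log ^ T N`, be ARBITRARY sets of integers. Rearrange the digits of each `d i` by a permutation `σ i`, let `v i` be the integer with the rearranged digits, and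
put `Y i = c i + κ i v i`. Then all the vectors `(σ 1, ..., σ s)` of permutations, with the exception of a proportion of at
most `1 / log ^ U N` of them, have the following property, for the set `S` of
the `q` for which `p_{q+2} + 2` is a prime, for all the sets `S = A l`, and for all `X ≤ N`: the number of the primes
`q ≤ X` in `S` for which all the numbers `Y i - q` are primes is the number predicted by the sieve model, up to an error of
at most `N / log ^ U N`: the sum, over the primes `q ≤ X` in `S` for which no `Y i - q` has a prime factor `≤ z`, of the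
products of the `1 / (log (Y i - q) ∏_{p ≤ z} (1 - 1 / p))`. -/
theorem result (s : ℕ) (b : Fin s → ℕ) (hb : ∀ i, 2 ≤ b i) (η : ℝ) (hη : 0 < η) (κ : Fin s → ℕ) (hκ : ∀ i, 1 ≤ κ i)
    (B T U : ℕ) :
    ∃ E₀ : ℕ, ∀ E : ℕ, E₀ ≤ E → ∃ N₀ : ℕ, ∀ N, N₀ ≤ N → ∀ k : Fin s → ℕ, (∀ i, N ≤ B * b i ^ k i ∧ b i ^ k i ≤ B * N) →
      ∀ d : ∀ i, Fin (k i) → ℕ, (∀ i, Mixed (b i) (k i) η (d i)) →
      ∀ c : Fin s → ℕ, (∀ i, c i ≤ B * N) → ∀ z : ℕ, Real.log N ^ E ≤ z → (z : ℝ) ≤ Real.log N ^ (E + 1) →
      ∀ L : ℕ, (L : ℝ) ≤ Real.log N ^ T → ∀ A : ℕ → Set ℕ,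
      ((univ.filter fun σ : ∀ i, Equiv.Perm (Fin (k i)) =>
        ¬ Good z U L N A (fun i => c i + κ i * rearranged (b i) (d i) (σ i))).card : ℝ) ≤
      ((∏ i, (k i).factorial : ℕ) : ℝ) / Real.log N ^ U := by
  obtain ⟨E₀, h⟩ := Pool.Agent.V11251.DS.idx_perm s b hb η hη (fun i => (κ i : ℤ)) (fun _ => -1)
    (fun i => by have := hκ i; exact_mod_cast (by omega : κ i ≠ 0)) (fun _ => by norm_num) B (T + 1) U
  refine ⟨E₀, fun E hE => ?_⟩
  obtain ⟨N₀, h1⟩ := h E hE
  refine ⟨N₀ + 8, fun N hN k hk d hd c hc z hz1 hz2 L hL A => ?_⟩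
  have hlog : 2 ≤ Real.log N := by
    have h8 : Real.log 8 ≤ Real.log N := Real.log_le_log (by norm_num) (by exact_mod_cast (by omega : 8 ≤ N))
    have h9 : Real.log 8 = 3 * Real.log 2 := by rw [← Real.log_rpow (by norm_num)]; norm_num
    have := Real.log_two_gt_d9
    linarith
  have hcard : (((insert twinIndex ((range L).image A)).card : ℕ) : ℝ) ≤ Real.log N ^ (T + 1) := by
    have h2 : (insert twinIndex ((range L).image A)).card ≤ L + 1 :=
      (card_insert_le _ _).trans (Nat.add_le_add_right (card_image_le.trans (card_range L).le) 1)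
    have h3 : (1 : ℝ) ≤ Real.log N ^ T := one_le_pow₀ (by linarith)
    calc (((insert twinIndex ((range L).image A)).card : ℕ) : ℝ) ≤ ((L + 1 : ℕ) : ℝ) := Nat.cast_le.2 h2
      _ = L + 1 := by push_cast; ring
      _ ≤ 2 * Real.log N ^ T := by linarith
      _ ≤ Real.log N * Real.log N ^ T := mul_le_mul_of_nonneg_right hlog (by linarith)
      _ = Real.log N ^ (T + 1) := by rw [pow_succ]; ring
  rw [Nat.cast_prod]
  refine h1 N (by omega) k (fun i => ⟨(hk i).2, (hk i).1⟩) d (fun i => ⟨(hd i).1, (hd i).2⟩) (fun i => (c i : ℤ))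
    (fun i => by rw [abs_of_nonneg (by positivity)]; exact_mod_cast hc i)
    z hz1 hz2 (Set ℕ) (insert twinIndex ((range L).image A)) (hcard) (fun S => {q | q ∈ S ∧ q.Prime}) (fun σ => Good z U L N A (fun i => c i + κ i * rearranged (b i) (d i) (σ i))) (fun σ hv => ?_)
  intro S hS X hX
  have h2 := hv S (by
    rw [mem_insert, mem_image]
    rcases hS with h | ⟨l, hl, h⟩
    · exact Or.inl h
    · exact Or.inr ⟨l, mem_range.2 hl, h.symm⟩) X hX
  have e2 : ∀ i, (((c i + κ i * rearranged (b i) (d i) (σ i) : ℕ)) : ℤ) = (c i : ℤ) + (κ i : ℤ) * (((Pool.Agent.TH872.An.V (b i) (d i) (σ i) : ℕ) : ℕ) : ℤ) := fun i => by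
    push_cast; rfl
  rw [Pool.Agent.V11251.DS.DC_set' _ X z _ _ (primesIn S X) (common S (fun i => c i + κ i * rearranged (b i) (d i) (σ i)) X)
    (fun q => ∏ i, model z (c i + κ i * rearranged (b i) (d i) (σ i) - q))] at h2
  · exact h2
  · intro n
    unfold primesIn
    rw [mem_filter]
    exact Iff.rfl
  · intro n
    unfold common primesIn
    rw [mem_filter, mem_filter, and_assoc]
    apply and_congr Iff.rfl
    apply and_congr Iff.rfl
    apply forall_congr'
    intro i
    rw [← e2]
    have h3 : (-1 * (n : ℤ) + ((c i + κ i * rearranged (b i) (d i) (σ i) : ℕ) : ℤ)).toNat = c i + κ i * rearranged (b i) (d i) (σ i) - n := by omega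
    rw [h3]
  · intro n _
    apply prod_congr rfl
    intro i _
    rw [← e2, Pool.Agent.V11251.DS.Mo_sub]
    rfl

end Pool.Agent.Results.MP_0ec542_nt.RearrangedIndexConditions
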