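import Pool.Agent.Helper29.BE.Dens

/-!
# Primes `q` with `2 n - q` and `p_{q+2} + h` prime, for many pairs `(2 n, h)`

The problem asks, for every `n > 2`, for a prime `q` such that `2 n - q` and `p_{q+2} + 2` are prime.
Here the shift `2` of `p_{q+2}` is replaced by another even number `h`: for all large `M` and all `H`
from `M ^ 34` up to about `exp (√(M / log M))`, at least `c H² / (log log log M)²` of the pairs
`(2 n, h)` of even numbers up to `H` have a prime `q ≤ M` such that `2 n - q` and `p_{q+2} + h` are both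
prime. (So `q` can be as small as a power of `log H`.) More generally one prime `q ≤ M` serves `r`
conditions of this kind at once, for at least `c_r H ^ r / (log log log M) ^ r` of the `r`-tuples of
even numbers; for instance `2 n_1 - q`, `2 n_2 - q` and `p_{q+2} + h_1`, `p_{q+2} + h_2`.

The starting result `ChenIndexShifts` concerns shifts of `p_{q+2}` divisible by the product of the
primes up to a multiple of `log log n`, and `2 n - q` with at most two prime factors.

The proof is the second moment method, with the sharp form of the upper bound sieve for prime pairs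
and the moments of the singular factor over differences of the starting library
(`Pool.Agent.H197R2.PG`), in a form for vectors of shifts (`Pool.Agent.Helper29.BE.main`).
-/

set_option autoImplicit false

open Finset Filter Topology

namespace Pool.Agent.Results.MP_0ec542_nt.TwoShifts

/-- The `j`-th prime: `p 1 = 2`, `p 2 = 3`, `p 3 = 5`, and so on. -/
noncomputable def p (j : ℕ) : ℕ := Nat.nth Nat.Prime (j - 1)

/-- The odd primes up to `M`. -/
def oddPrimes (M : ℕ) : Finset ℕ := (Ioc 2 M).filter Nat.Prime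

/-- For `b = true`: the number `a + h` is prime. For `b = false`: the number `h - a` is positive and
prime. -/
def PrimeShift (b : Bool) (a h : ℕ) : Prop :=
  if b = true then (a + h).Prime else (a < h ∧ (h - a).Prime)

/-- The `r`-tuples of even numbers `1 ≤ h j ≤ H` such that for some odd prime `q ≤ M` all the numbers
`a + h j` (for `s j = true`) and `h j - a` (for `s j = false`) are prime, where `a` is `q` if
`τ j = true` and `p_{q+2}` if `τ j = false`. -/
def tuples {r : ℕ} (τ s : Fin r → Bool) (M H : ℕ) : Set (Fin r → ℕ) :=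
  {h | (∀ j, 1 ≤ h j ∧ h j ≤ H ∧ Even (h j)) ∧ ∃ q ∈ oddPrimes M,
    ∀ j, PrimeShift (s j) (if τ j = true then q else p (q + 2)) (h j)}

open Pool.Agent.Helper29.BE in
/-- (1) For every `r ≥ 1` there are `c > 0` and `M₀` such that for all `M ≥ M₀`, all `H` with
`M ^ 34 ≤ H` and `(log H) ^ r ≤ #{odd primes q ≤ M}`, all types `τ` and all signs `s`: for at least
`c H ^ r / (log log log M) ^ r` of the `r`-tuples of even numbers `h_j ≤ H` there is an odd prime
`q ≤ M` such that all the numbers `a_j + h_j` (or `h_j - a_j`) are prime, where `a_j` is `q` or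
`p_{q+2}` according to `τ`.

(2) The case of Q1: for at least `c H² / (log log log M)²` of the pairs `(h_0, h_1)` of even numbers up
to `H` there is an odd prime `q ≤ M` such that `h_0 - q` and `p_{q+2} + h_1` are prime. -/
theorem result : (∀ r : ℕ, 1 ≤ r → ∃ c : ℝ, 0 < c ∧ ∃ M₀ : ℕ, ∀ M : ℕ, M₀ ≤ M → ∀ H : ℕ,
    M ^ 34 ≤ H → Real.log H ^ r ≤ ((oddPrimes M).card : ℝ) → ∀ τ s : Fin r → Bool,
    c * H ^ r / Real.log (Real.log (Real.log M)) ^ r ≤ ((tuples τ s M H).ncard : ℝ)) ∧
    ∃ c : ℝ, 0 < c ∧ ∃ M₀ : ℕ, ∀ M : ℕ, M₀ ≤ M → ∀ H : ℕ,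
    M ^ 34 ≤ H → Real.log H ^ 2 ≤ ((oddPrimes M).card : ℝ) →
    c * H ^ 2 / Real.log (Real.log (Real.log M)) ^ 2 ≤
      ({h : Fin 2 → ℕ | (∀ j, 1 ≤ h j ∧ h j ≤ H ∧ Even (h j)) ∧ ∃ q ∈ oddPrimes M,
        (q < h 0 ∧ (h 0 - q).Prime) ∧ (p (q + 2) + h 1).Prime}.ncard : ℝ) := by
  classical
  have key : ∀ r : ℕ, 1 ≤ r → ∃ c : ℝ, 0 < c ∧ ∃ M₀ : ℕ, ∀ M : ℕ, M₀ ≤ M → ∀ H : ℕ,
      M ^ 34 ≤ H → Real.log H ^ r ≤ ((oddPrimes M).card : ℝ) → ∀ τ s : Fin r → Bool,
      c * H ^ r / Real.log (Real.log (Real.log M)) ^ r ≤ ((tuples τ s M H).ncard : ℝ) := by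
    intro r hr
    obtain ⟨c, hc, n₀, h⟩ := shiftsD r 6 hr
    have t2 : Tendsto (fun N : ℕ => N + 2) atTop atTop := tendsto_add_atTop_nat 2
    obtain ⟨n₁, hn₁⟩ := eventually_atTop.1 ((t2.eventually P_le_log).and (ev_half.and
      ((tLog.eventually_ge_atTop 128).and ((Pool.Agent.H197R2.PG.QQ_card).and
        (eventually_ge_atTop (n₀ + 6))))))
    refine ⟨c, hc, n₁, fun M hM H hH hHn τ s => ?_⟩
    obtain ⟨g1, g2, g3, g5, g4⟩ := hn₁ M hM
    have hM6 : (6 : ℝ) ≤ M := by exact_mod_cast (by omega : 6 ≤ M)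
    have hM0 : (0 : ℝ) < M := by linarith
    have hL0 : 0 < Real.log (M : ℝ) := by linarith
    set T : Finset ℕ := oddPrimes M with hT
    have hTm : ∀ q ∈ T, 2 < q ∧ q ≤ M ∧ q.Prime := by
      intro q hq
      rw [hT] at hq
      unfold oddPrimes at hq
      rw [mem_filter, mem_Ioc] at hq
      exact ⟨hq.1.1, hq.1.2, hq.2⟩
    have hTc : (M : ℝ) / (2 * Real.log M) ≤ #T := g5
    set Y : ℕ := P (M + 2) with hY
    have hlogM2 : Real.log ((M + 2 : ℕ) : ℝ) ≤ 2 * Real.log M := by
      have h1 : ((M + 2 : ℕ) : ℝ) ≤ (M : ℝ) ^ 2 := by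
        push_cast
        nlinarith
      have h2 := Real.log_le_log (by positivity) h1
      rw [Real.log_pow] at h2
      exact_mod_cast h2
    have hY1 : (Y : ℝ) ≤ 16 * M * Real.log M ^ 3 := by
      have h0 : 0 ≤ Real.log ((M + 2 : ℕ) : ℝ) := Real.log_natCast_nonneg _
      calc (Y : ℝ) ≤ ((M + 2 : ℕ) : ℝ) * Real.log ((M + 2 : ℕ) : ℝ) ^ 3 := g1
        _ ≤ (2 * M) * (2 * Real.log M) ^ 3 := by
            gcongr
            push_cast
            linarith
        _ = 16 * M * Real.log M ^ 3 := by ring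
    have hYn2 : Y ≤ M ^ 2 := by
      have h1 : (Y : ℝ) ≤ (M : ℝ) ^ 2 := by
        calc (Y : ℝ) ≤ 16 * M * Real.log M ^ 3 := hY1
          _ ≤ Real.log M ^ 4 * M * Real.log M ^ 3 := by
              gcongr
              calc (16 : ℝ) ≤ 128 ^ 4 := by norm_num
                _ ≤ Real.log M ^ 4 := pow_le_pow_left₀ (by norm_num) g3 4
          _ = Real.log M ^ 7 * M := by ring
          _ ≤ M * M := mul_le_mul_of_nonneg_right g2 hM0.le
          _ = (M : ℝ) ^ 2 := by ring
      exact_mod_cast h1
    have h1 := h M (by omega) Y H ((Nat.le_add_right M 2).trans (le_P (M + 2))) (by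
        calc Y ^ 17 ≤ (M ^ 2) ^ 17 := Nat.pow_le_pow_left hYn2 17
          _ = M ^ 34 := by ring
          _ ≤ H := hH) T (fun j q => if τ j = true then q else P (q + 2)) s (by
      intro j q hq q' hq' hqq
      simp only at hqq
      by_cases hτ : τ j = true
      · rw [if_pos hτ, if_pos hτ] at hqq
        exact hqq
      · rw [if_neg hτ, if_neg hτ] at hqq
        have e2 := P_inj (by omega) (by omega) hqq
        omega) (by
      intro j q hq
      obtain ⟨hq1, hq2, hq3⟩ := hTm q hq
      by_cases hτ : τ j = true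
      · rw [if_pos hτ]
        refine ⟨hq3.odd_of_ne_two (by omega), ?_⟩
        exact hq2.trans ((Nat.le_add_right M 2).trans (le_P (M + 2)))
      · rw [if_neg hτ]
        exact ⟨Nat.odd_iff.2 (P_odd (by omega)).2, P_mono (by omega)⟩) hHn (by
      calc 2 * (Y : ℝ) ≤ 2 * (16 * M * Real.log M ^ 3) := by linarith
        _ = 64 * Real.log M ^ 4 * (M / (2 * Real.log M)) := by
            field_simp
            ring
        _ ≤ Real.log M * Real.log M ^ 4 * (M / (2 * Real.log M)) := by
            gcongr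
            linarith
        _ = Real.log M ^ 5 * (M / (2 * Real.log M)) := by ring
        _ ≤ Real.log M ^ 6 * #T := by
            apply mul_le_mul _ hTc (by positivity) (by positivity)
            exact pow_le_pow_right₀ (by linarith) (by norm_num))
    refine h1.trans ?_
    apply Nat.cast_le.2
    apply card_le
    intro h q hq hp
    exact ⟨q, hq, hp⟩
  refine ⟨key, ?_⟩
  obtain ⟨c, hc, M₀, h⟩ := key 2 (by norm_num)
  refine ⟨c, hc, M₀, fun M hM H hH hHn => ?_⟩
  refine (h M hM H hH hHn ![true, false] ![false, true]).trans ?_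
  apply Nat.cast_le.2
  apply Set.ncard_le_ncard
  · rintro h ⟨h1, q, hq, h2⟩
    exact ⟨h1, q, hq, h2 0, h2 1⟩
  · apply (Finset.finite_toSet (Fintype.piFinset (fun _ : Fin 2 => Icc 1 H))).subset
    rintro h ⟨h1, -⟩
    rw [mem_coe, Fintype.mem_piFinset]
    intro i
    rw [mem_Icc]
    exact ⟨(h1 i).1, (h1 i).2.1⟩

end Pool.Agent.Results.MP_0ec542_nt.TwoShifts
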